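import Pool.Agent.Helper96.DT.BA

set_option autoImplicit false
set_option linter.all false

namespace Pool.Agent.Helper50.OLB

open Pool.Agent.Helper58.SH Pool.Agent.Helper96.DT

variable {R : Type} [CommRing R] [Algebra ℂ R] {k : Type} [Field k] [Algebra ℂ k]

/-- two coprime functions in the kernel of a point: it has at most `2 n - 2` parameters -/
theorem dim_ker [IsDomain R] [UniqueFactorizationMonoid R] (hfg : Algebra.FiniteType ℂ R) {N : ℕ}
    (hdim : ringKrullDim R = (N : ℕ)) (p : R →ₐ[ℂ] k) {a b : R} (hb0 : b ≠ 0)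
    (hcop : ∀ q, Prime q → q ∣ a → ¬ q ∣ b) (ha : p a = 0) (hb : p b = 0) :
    ∃ s, s + 2 ≤ N ∧ ∃ t : Fin s → R, ∀ D : Derivation ℂ k k, (∀ i, D (p (t i)) = 0) →
      ∀ r, D (p r) = 0 := by
  classical
  -- a prime factor of `b` in the kernel
  obtain ⟨π, hπ, hπb, hπ0⟩ : ∃ π, Prime π ∧ π ∣ b ∧ p π = 0 := by
    obtain ⟨u, hu⟩ := UniqueFactorizationMonoid.exists_prime_factors b hb0
    obtain ⟨hup, v, hv⟩ := hu
    have h1 : p u.prod = 0 := by
      have h2 : p (u.prod * v) = 0 := by rw [hv]; exact hb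
      rw [map_mul] at h2
      rcases mul_eq_zero.1 h2 with h | h
      · exact h
      · exact absurd h ((v.isUnit.map p).ne_zero)
    rw [map_multiset_prod, Multiset.prod_eq_zero_iff, Multiset.mem_map] at h1
    obtain ⟨π, hπ, h2⟩ := h1
    exact ⟨π, hup π hπ, (Multiset.dvd_prod hπ).trans ⟨v, hv.symm⟩, h2⟩
  have hπa : ¬ π ∣ a := fun h => hcop π hπ h hπb
  set I : Ideal R := Ideal.span {π} with hI
  have hIp : I.IsPrime := (Ideal.span_singleton_prime hπ.ne_zero).2 hπ
  have hd1 : ringKrullDim (R ⧸ I) + 1 ≤ ringKrullDim R :=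
    ringKrullDim_quotient_succ_le_of_nonZeroDivisor (mem_nonZeroDivisors_of_ne_zero hπ.ne_zero)
  set a' : R ⧸ I := Ideal.Quotient.mk I a with ha'
  have ha'0 : a' ≠ 0 := by
    rw [ha', Ne, Ideal.Quotient.eq_zero_iff_mem, hI, Ideal.mem_span_singleton]
    exact hπa
  have hd2 : ringKrullDim ((R ⧸ I) ⧸ Ideal.span {a'}) + 1 ≤ ringKrullDim (R ⧸ I) :=
    ringKrullDim_quotient_succ_le_of_nonZeroDivisor (mem_nonZeroDivisors_of_ne_zero ha'0)
  -- the image of the point
  let S := p.range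
  have hS : IsDomain S := inferInstance
  let π₁ : R →ₐ[ℂ] S := p.rangeRestrict
  have hsurj : Function.Surjective π₁ := p.rangeRestrict_surjective
  have hSfg : Algebra.FiniteType ℂ S := Algebra.FiniteType.of_surjective π₁ hsurj
  have hd3 : ringKrullDim S ≤ ringKrullDim ((R ⧸ I) ⧸ Ideal.span {a'}) := by
    have h1 : ∀ x ∈ I, π₁ x = 0 := by
      intro x hx
      rw [hI, Ideal.mem_span_singleton] at hx
      obtain ⟨y, rfl⟩ := hx
      apply Subtype.ext
      change p (π * y) = 0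
      rw [map_mul, hπ0, zero_mul]
    let φ₁ : R ⧸ I →+* S := Ideal.Quotient.lift I π₁.toRingHom h1
    have h2 : ∀ x ∈ Ideal.span {a'}, φ₁ x = 0 := by
      intro x hx
      rw [Ideal.mem_span_singleton] at hx
      obtain ⟨y, rfl⟩ := hx
      rw [map_mul]
      have h3 : φ₁ a' = 0 := by
        apply Subtype.ext
        exact ha
      rw [h3, zero_mul]
    let φ₂ : (R ⧸ I) ⧸ Ideal.span {a'} →+* S := Ideal.Quotient.lift _ φ₁ h2
    refine ringKrullDim_le_of_surjective φ₂ ?_
    intro y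
    obtain ⟨r, rfl⟩ := hsurj y
    exact ⟨Ideal.Quotient.mk _ (Ideal.Quotient.mk _ r), rfl⟩
  obtain ⟨s, g, ginj, gint⟩ := exists_integral_inj_algHom_of_fg ℂ S
  have hs : (s : WithBot ℕ∞) ≤ ringKrullDim S := by
    let := g.toRingHom.toAlgebra
    have hint : Algebra.IsIntegral (MvPolynomial (Fin s) ℂ) S := ⟨gint⟩
    have h1 := dim_le (MvPolynomial (Fin s) ℂ) S ginj
    rw [MvPolynomial.ringKrullDim_of_isNoetherianRing, ringKrullDim_eq_zero_of_field] at h1
    simpa using h1
  have hsN : s + 2 ≤ N := by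
    have h1 : ((s : WithBot ℕ∞) + 1) + 1 ≤ (N : WithBot ℕ∞) := by
      calc ((s : WithBot ℕ∞) + 1) + 1 ≤ (ringKrullDim (R ⧸ I)) + 1 := by
            gcongr
            refine le_trans ?_ hd2
            gcongr
            exact hs.trans hd3
        _ ≤ ringKrullDim R := hd1
        _ = (N : ℕ) := hdim
    exact_mod_cast h1
  choose t ht using fun i : Fin s => hsurj (g (MvPolynomial.X i))
  refine ⟨s, hsN, t, fun D hD r => ?_⟩
  -- the derivation on the image
  let δ : S →ₗ[ℂ] k := D.toLinearMap.comp S.val.toLinearMap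
  have hδ : IsDer S.val δ := ⟨fun x y => by
    change D ((x : k) * (y : k)) = _
    rw [D.leibniz]
    rfl⟩
  have h := der_zero g ginj gint (x := S.val) Subtype.val_injective δ hδ (fun j => by
    change D ((g (MvPolynomial.X j) : S) : k) = 0
    rw [← ht]
    exact hD j) (π₁ r)
  exact h

end Pool.Agent.Helper50.OLB
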